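import Pool.Agent.Work.MP_d94bda_kk.AllZ

/-!
# MP_d94bda_al: the Cantor-Bendixson rank of the Ziegler spectrum of an artin algebra is not one

Let `R` be an artin algebra: a ring that is a finitely generated module over a commutative artinian
ring `C` which acts through the centre of `R`. The Ziegler spectrum of `R` does not have
Cantor-Bendixson rank exactly one: it is not the case that its first Cantor-Bendixson derivative is
nonempty and its second Cantor-Bendixson derivative is empty.

There is no hypothesis besides the definition of an artin algebra. In particular the isolation
condition is not assumed and `R` may be uncountable. Modules are left modules in the definitions; as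
`R` is an arbitrary artin algebra, the opposite ring gives the statement for right modules.
-/

set_option autoImplicit false

namespace Pool.Agent.Results.MP_d94bda_al.NotRankOne

universe u

/-- Q1 of MP_d94bda_al, answered in the positive: for every artin algebra `R` the
Cantor-Bendixson rank of the Ziegler spectrum of `R` is not one. -/
theorem result (R : Type u) [Ring R] (C : Type u) [CommRing C] [IsArtinianRing C] [Algebra C R]
    [Module.Finite C R] : ¬ Pool.ZgCB.CBRankOne R :=
  Pool.ZgCB.not_CBRankOne R C

end Pool.Agent.Results.MP_d94bda_al.NotRankOne
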